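import Pool.Agent.DQ2.Stmts

/-!
# Squad DQ2, row IR1: a reducible form of degree two or three has a linear factor
-/

set_option autoImplicit false

namespace Pool.Agent.DQ2.H59

open MvPolynomial
open Pool.Agent.DQ2

variable {E : Type} [Field E] {N : ℕ}

/-- The restriction to the line through `0` and `x`. -/
noncomputable def ph (x : Fin N → E) : MvPolynomial (Fin N) E →ₐ[E] Polynomial E :=
  aeval fun i => Polynomial.C (x i) * Polynomial.X

theorem hom_coeff (F : MvPolynomial (Fin N) E) (d : ℕ) (hF : F.IsHomogeneous d) (x : Fin N → E) :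
    (ph x F).coeff d = eval x F := by
  unfold ph
  rw [aeval_def, eval₂_eq', eval_eq', Polynomial.finset_sum_coeff]
  refine Finset.sum_congr rfl fun m hm => ?_
  have h1 : ∏ i, (Polynomial.C (x i) * Polynomial.X : Polynomial E) ^ m i =
      Polynomial.C (∏ i, x i ^ m i) * Polynomial.X ^ (∑ i, m i) := by
    simp only [mul_pow, Finset.prod_mul_distrib, Finset.prod_pow_eq_pow_sum, map_prod, map_pow]
  have h2 : ∑ i, m i = d := by
    have := hF (mem_support_iff.1 hm)
    rw [← this, Finsupp.weight_apply, Finsupp.sum_fintype _ _ (by simp)]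
    simp
  rw [h1, h2, Polynomial.algebraMap_eq, ← mul_assoc, ← Polynomial.C_mul, Polynomial.coeff_C_mul,
    Polynomial.coeff_X_pow_self, mul_one]

theorem lin (G : MvPolynomial (Fin N) E) (hG : G.totalDegree ≤ 1) :
    G = C (coeff 0 G) + ∑ i, C (coeff (Finsupp.single i 1) G) * X i := by
  ext m
  rw [coeff_add, coeff_C, coeff_sum]
  simp only [coeff_C_mul, coeff_X']
  by_cases h0 : m = 0
  · subst h0
    simp
  · have h0' : ¬ (0 = m) := fun h => h0 h.symm
    rw [if_neg h0', zero_add]
    by_cases h1 : ∃ j, m = Finsupp.single j 1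
    · obtain ⟨j, rfl⟩ := h1
      rw [Finset.sum_eq_single j]
      · simp
      · intro i _ hij
        rw [if_neg, mul_zero]
        intro h
        exact hij (Finsupp.single_left_injective one_ne_zero h)
      · intro h
        exact absurd (Finset.mem_univ j) h
    · rw [Finset.sum_eq_zero]
      · apply coeff_eq_zero_of_totalDegree_lt
        refine lt_of_le_of_lt hG ?_
        by_contra hc
        have hc' : ∑ i ∈ m.support, m i ≤ 1 := not_lt.1 hc
        obtain ⟨j, hj⟩ : ∃ j, m j ≠ 0 := by
          by_contra hh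
          push Not at hh
          exact h0 (Finsupp.ext hh)
        have hjs : j ∈ m.support := Finsupp.mem_support_iff.2 hj
        have h2 : m j ≤ ∑ i ∈ m.support, m i :=
          Finset.single_le_sum (f := fun i => m i) (fun _ _ => Nat.zero_le _) hjs
        have hmj : m j = 1 := by omega
        apply h1
        refine ⟨j, Finsupp.ext fun i => ?_⟩
        by_cases hij : i = j
        · subst hij
          simp [hmj]
        · rw [Finsupp.single_apply, if_neg (fun h => hij h.symm)]
          by_contra hi
          have his : i ∈ m.support := Finsupp.mem_support_iff.2 hi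
          have h3 : m j + m i ≤ ∑ i ∈ m.support, m i := by
            rw [← Finset.sum_pair (f := fun i => m i) (fun h : j = i => hij h.symm)]
            exact Finset.sum_le_sum_of_subset_of_nonneg (by
              intro k hk
              simp only [Finset.mem_insert, Finset.mem_singleton] at hk
              rcases hk with rfl | rfl
              · exact hjs
              · exact his) (fun _ _ _ => Nat.zero_le _)
          omega
      · intro i _
        rw [if_neg, mul_zero]
        intro h
        exact h1 ⟨i, h.symm⟩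

theorem van (F G H : MvPolynomial (Fin N) E) (d : ℕ) (hF : F.IsHomogeneous d) (hGH : F = G * H)
    (hG : G.totalDegree ≤ 1) (hH : H.totalDegree < d) (x : Fin N → E)
    (hx : ∑ i, coeff (Finsupp.single i 1) G * x i = 0) : eval x F = 0 := by
  rw [← hom_coeff F d hF x, hGH, map_mul]
  have h1 : ph x G = Polynomial.C (coeff 0 G) := by
    conv_lhs => rw [lin G hG]
    rw [map_add, map_sum]
    have h2 : ∑ i, ph x (C (coeff (Finsupp.single i 1) G) * X i) =
        Polynomial.C (∑ i, coeff (Finsupp.single i 1) G * x i) * Polynomial.X := by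
      rw [map_sum, Finset.sum_mul]
      refine Finset.sum_congr rfl fun i _ => ?_
      unfold ph
      rw [map_mul, aeval_C, aeval_X, Polynomial.algebraMap_eq, Polynomial.C_mul, mul_assoc]
    rw [h2, hx]
    unfold ph
    rw [aeval_C, Polynomial.algebraMap_eq]
    simp
  rw [h1, Polynomial.coeff_C_mul]
  have h3 : (ph x H).natDegree ≤ H.totalDegree * 1 := by
    unfold ph
    apply aeval_natDegree_le H le_rfl
    intro i
    exact (Polynomial.natDegree_C_mul_le _ _).trans Polynomial.natDegree_X_le
  rw [Polynomial.coeff_eq_zero_of_natDegree_lt (by omega), mul_zero]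

theorem ev0 (n d : ℕ) (F : MvPolynomial (Fin (n + 2)) E) (hF : F.IsHomogeneous d) :
    eval (fun i : Fin (n + 2) => if i = 0 then 1 else 0) F = coeff (Finsupp.single 0 d) F := by
  rw [eval_eq', Finset.sum_eq_single (Finsupp.single 0 d)]
  · rw [Finset.prod_eq_one, mul_one]
    intro i _
    by_cases hi : i = 0
    · simp [hi]
    · have h0 : (Finsupp.single (0 : Fin (n + 2)) d) i = 0 := by
        rw [Finsupp.single_apply, if_neg (fun h => hi h.symm)]
      rw [h0, pow_zero]
  · intro m hm hne
    have h2 : ∑ i, m i = d := by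
      have := hF (mem_support_iff.1 hm)
      rw [← this, Finsupp.weight_apply, Finsupp.sum_fintype _ _ (by simp)]
      simp
    obtain ⟨i, hi0, hi⟩ : ∃ i, i ≠ 0 ∧ m i ≠ 0 := by
      by_contra hh
      push Not at hh
      apply hne
      refine Finsupp.ext fun i => ?_
      by_cases hi : i = 0
      · subst hi
        rw [Finsupp.single_eq_same, ← h2, Finset.sum_eq_single 0]
        · intro j _ hj
          exact hh j hj
        · intro h
          exact absurd (Finset.mem_univ _) h
      · rw [hh i hi, Finsupp.single_apply, if_neg (fun h => hi h.symm)]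
    rw [Finset.prod_eq_zero (Finset.mem_univ i), mul_zero]
    rw [if_neg hi0, zero_pow hi]
  · intro h
    rw [notMem_support_iff.1 h, zero_mul]

theorem key (n d : ℕ) (F G H : MvPolynomial (Fin (n + 2)) E) (hn : 2 ≤ n)
    (hF : F.IsHomogeneous d) (hc : coeff (Finsupp.single 0 d) F = 1) (hGH : F = G * H)
    (hG : G.totalDegree ≤ 1) (hH : H.totalDegree < d) :
    ∃ r₁ r₂ : E, ∀ t u : E,
      eval (fun j : Fin (n + 2) => if j.1 = 0 then r₁ * t + r₂ * u else if j.1 = 1 then t else
        if j.1 = 2 then u else 0) F = 0 := by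
  set a : Fin (n + 2) → E := fun i => coeff (Finsupp.single i 1) G with ha
  have ha0 : a 0 ≠ 0 := by
    intro h
    have h1 := van F G H d hF hGH hG hH (fun i : Fin (n + 2) => if i = 0 then 1 else 0) (by
      simpa using h)
    rw [ev0 n d F hF, hc] at h1
    exact one_ne_zero h1
  obtain ⟨m, rfl⟩ : ∃ m, n = m + 2 := ⟨n - 2, by omega⟩
  refine ⟨-(a 1 / a 0), -(a 2 / a 0), fun t u => ?_⟩
  refine van F G H d hF hGH hG hH _ ?_
  show ∑ i : Fin (m + 2 + 2), a i * _ = 0
  rw [Fin.sum_univ_succ, Fin.sum_univ_succ, Fin.sum_univ_succ]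
  have hz : ∑ i : Fin (m + 1), a i.succ.succ.succ * (if (i.succ.succ.succ : Fin (m + 2 + 2)).1 = 0
      then -(a 1 / a 0) * t + -(a 2 / a 0) * u
      else if (i.succ.succ.succ : Fin (m + 2 + 2)).1 = 1 then t
      else if (i.succ.succ.succ : Fin (m + 2 + 2)).1 = 2 then u else 0) = 0 := by
    refine Finset.sum_eq_zero fun i _ => ?_
    have h1 : (i.succ.succ.succ : Fin (m + 2 + 2)).1 = i.1 + 3 := by simp
    rw [h1, if_neg (by omega), if_neg (by omega), if_neg (by omega), mul_zero]
  rw [hz]
  have e1 : (Fin.succ 0 : Fin (m + 2 + 2)) = 1 := rfl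
  have e2 : (Fin.succ (Fin.succ 0) : Fin (m + 2 + 2)) = 2 := rfl
  rw [e1, e2]
  have v1 : (1 : Fin (m + 2 + 2)).1 = 1 := rfl
  have v2 : (2 : Fin (m + 2 + 2)).1 = 2 := rfl
  have v0 : (0 : Fin (m + 2 + 2)).1 = 0 := rfl
  rw [v0, v1, v2]
  simp only [if_true, one_ne_zero, if_false, OfNat.ofNat_ne_zero, OfNat.ofNat_ne_one, add_zero]
  field_simp
  ring

theorem ir1 : IR1 := by
  intro E _ _ _ n d F hn hd hF hc hirr
  have hF0 : F ≠ 0 := by
    intro h
    rw [h, coeff_zero] at hc
    exact zero_ne_one hc
  have hdeg : F.totalDegree = d := hF.totalDegree hF0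
  have hU : ∀ P : MvPolynomial (Fin (n + 2)) E, P ≠ 0 → ¬ IsUnit P → 1 ≤ P.totalDegree := by
    intro P hP0 hP
    by_contra h
    apply hP
    have h0 : P.totalDegree = 0 := by omega
    have h1 := totalDegree_eq_zero_iff_eq_C.1 h0
    rw [h1]
    refine IsUnit.map C (isUnit_iff_ne_zero.2 ?_)
    intro h2
    apply hP0
    rw [h1, h2, C_0]
  have hFU : ¬ IsUnit F := by
    intro h
    have := (isUnit_iff_totalDegree_of_isReduced.1 h).2
    omega
  rw [irreducible_iff] at hirr
  push Not at hirr
  obtain ⟨G, H, hGH, hGu, hHu⟩ := hirr hFU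
  have hG0 : G ≠ 0 := by
    rintro rfl
    exact hF0 (by rw [hGH, zero_mul])
  have hH0 : H ≠ 0 := by
    rintro rfl
    exact hF0 (by rw [hGH, mul_zero])
  have h1 := hU G hG0 hGu
  have h2 := hU H hH0 hHu
  have h3 : G.totalDegree + H.totalDegree = d := by
    rw [← hdeg, hGH, totalDegree_mul_of_isDomain hG0 hH0]
  rcases Nat.lt_or_ge 1 G.totalDegree with h | h
  · exact key n d F H G hn hF hc (by rw [hGH, mul_comm]) (by omega) (by omega)
  · exact key n d F G H hn hF hc hGH h (by omega)

end Pool.Agent.DQ2.H59
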